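/-
MP_09fff0_gt (conformal box and Hausdorff dimensions of fractal percolation), Q1.

For Mandelbrot percolation (all parameters) the conformal upper box dimension and the conformal
Hausdorff dimension of the sample are almost surely equal.

The definitions (quasisymmetric maps, conformal dimensions, fractal percolation) are in
Pool/Agent/Lib/gtFP/Defs.lean, the proof is in the folders Pool/Agent/Lib/gtFP and
Pool/Agent/Lib/gtFQ.
-/
import Pool.Agent.Lib.gtFQ.Final

set_option autoImplicit false

open MeasureTheory

namespace Pool.Agent.Results.MP_09fff0_gt.EqualConformalDimensions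

/-- Let `F = gtFP.perc n ω` be the sample of Mandelbrot percolation in `[0,1]^d` with parameters
`n ≥ 2` and `p < 1`. Almost surely the conformal upper box dimension of `F` is equal to the conformal
Hausdorff dimension of `F`. -/
theorem result :
    ∀ (d n : ℕ) (p : unitInterval), 1 ≤ d → 2 ≤ n → p < 1 →
      ∀ᵐ ω ∂(gtFP.percLaw d p),
        gtFP.confDimB (gtFP.perc n ω) = gtFP.confDimH (gtFP.perc n ω) :=
  fun _ _ p hd hn hp => gtFQ.final hd hn p hp

end Pool.Agent.Results.MP_09fff0_gt.EqualConformalDimensions
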